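import Mathlib

set_option autoImplicit false

/-!
General lemmas on the reachability value `R` of frozen statement S15010 (MP_87895e_lc).
-/

namespace Pool.Agent.H28.SG

open Filter Topology Set

section
variable {S A B : Type} [Fintype A] [Fintype B]

/-- The one step operator of the frozen statement. -/
noncomputable def F (next : S → A → B → S) (σ : S → A → ℝ) (τ : S → B → ℝ) (T : Set S)
    (v : S → ℝ) : S → ℝ :=
  T.indicator (fun _ => (1 : ℝ)) +
    Tᶜ.indicator (fun x => ∑ a, ∑ b, σ x a * τ x b * v (next x a b))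

/-- The reachability probability of the frozen statement. -/
noncomputable def R (next : S → A → B → S) (σ : S → A → ℝ) (τ : S → B → ℝ) (T : Set S)
    (s : S) : ℝ :=
  ⨆ n : ℕ, ((F next σ τ T)^[n] (T.indicator (fun _ => (1 : ℝ)))) s

/-- Stationary strategy. -/
def Strat {S A : Type} [Fintype A] (σ : S → A → ℝ) : Prop :=
  (∀ s a, 0 ≤ σ s a) ∧ ∀ s, ∑ a, σ s a = 1

theorem F_of_mem {next : S → A → B → S} {σ : S → A → ℝ} {τ : S → B → ℝ} {T : Set S}
    {v : S → ℝ} {s : S} (hs : s ∈ T) : F next σ τ T v s = 1 := by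
  simp [F, hs]

theorem F_of_notMem {next : S → A → B → S} {σ : S → A → ℝ} {τ : S → B → ℝ} {T : Set S}
    {v : S → ℝ} {s : S} (hs : s ∉ T) :
    F next σ τ T v s = ∑ a, ∑ b, σ s a * τ s b * v (next s a b) := by
  simp [F, hs]

theorem F_mono {next : S → A → B → S} {σ : S → A → ℝ} {τ : S → B → ℝ} {T : Set S}
    (hσ : Strat σ) (hτ : Strat τ) {v w : S → ℝ} (h : ∀ s, v s ≤ w s) (s : S) :
    F next σ τ T v s ≤ F next σ τ T w s := by
  by_cases hs : s ∈ T
  · rw [F_of_mem hs, F_of_mem hs]
  · rw [F_of_notMem hs, F_of_notMem hs]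
    refine Finset.sum_le_sum fun a _ => Finset.sum_le_sum fun b _ => ?_
    exact mul_le_mul_of_nonneg_left (h _) (mul_nonneg (hσ.1 s a) (hτ.1 s b))

theorem sum_prod_one {σ : S → A → ℝ} {τ : S → B → ℝ} (hσ : Strat σ) (hτ : Strat τ) (s : S) :
    ∑ a, ∑ b, σ s a * τ s b = 1 := by
  have h1 : ∀ a, ∑ b, σ s a * τ s b = σ s a := by
    intro a
    rw [← Finset.mul_sum, hτ.2 s, mul_one]
  simp [h1, hσ.2 s]

theorem F_nonneg {next : S → A → B → S} {σ : S → A → ℝ} {τ : S → B → ℝ} {T : Set S}
    (hσ : Strat σ) (hτ : Strat τ) {v : S → ℝ} (h : ∀ s, 0 ≤ v s) (s : S) :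
    0 ≤ F next σ τ T v s := by
  by_cases hs : s ∈ T
  · rw [F_of_mem hs]; norm_num
  · rw [F_of_notMem hs]
    refine Finset.sum_nonneg fun a _ => Finset.sum_nonneg fun b _ => ?_
    exact mul_nonneg (mul_nonneg (hσ.1 s a) (hτ.1 s b)) (h _)

theorem F_le_one {next : S → A → B → S} {σ : S → A → ℝ} {τ : S → B → ℝ} {T : Set S}
    (hσ : Strat σ) (hτ : Strat τ) {v : S → ℝ} (h : ∀ s, v s ≤ 1) (s : S) :
    F next σ τ T v s ≤ 1 := by
  by_cases hs : s ∈ T
  · rw [F_of_mem hs]
  · rw [F_of_notMem hs, ← sum_prod_one hσ hτ s]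
    refine Finset.sum_le_sum fun a _ => Finset.sum_le_sum fun b _ => ?_
    have := mul_le_mul_of_nonneg_left (h (next s a b)) (mul_nonneg (hσ.1 s a) (hτ.1 s b))
    simpa using this

/-- The iterates. -/
noncomputable def It (next : S → A → B → S) (σ : S → A → ℝ) (τ : S → B → ℝ) (T : Set S)
    (n : ℕ) : S → ℝ :=
  (F next σ τ T)^[n] (T.indicator (fun _ => (1 : ℝ)))

theorem It_zero {next : S → A → B → S} {σ : S → A → ℝ} {τ : S → B → ℝ} {T : Set S} :
    It next σ τ T 0 = T.indicator (fun _ => (1 : ℝ)) := rfl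

theorem It_succ {next : S → A → B → S} {σ : S → A → ℝ} {τ : S → B → ℝ} {T : Set S} (n : ℕ) :
    It next σ τ T (n + 1) = F next σ τ T (It next σ τ T n) := by
  simp [It, Function.iterate_succ_apply']

theorem R_eq {next : S → A → B → S} {σ : S → A → ℝ} {τ : S → B → ℝ} {T : Set S} (s : S) :
    R next σ τ T s = ⨆ n : ℕ, It next σ τ T n s := rfl

theorem ind_nonneg (T : Set S) (s : S) : 0 ≤ T.indicator (fun _ => (1 : ℝ)) s :=
  Set.indicator_nonneg (fun _ _ => zero_le_one) s

theorem ind_le_one (T : Set S) (s : S) : T.indicator (fun _ => (1 : ℝ)) s ≤ 1 := by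
  classical
  by_cases h : s ∈ T <;> simp [h]

theorem It_nonneg {next : S → A → B → S} {σ : S → A → ℝ} {τ : S → B → ℝ} {T : Set S}
    (hσ : Strat σ) (hτ : Strat τ) (n : ℕ) (s : S) : 0 ≤ It next σ τ T n s := by
  induction n generalizing s with
  | zero => exact ind_nonneg T s
  | succ n ih => rw [It_succ]; exact F_nonneg hσ hτ ih s

theorem It_le_one {next : S → A → B → S} {σ : S → A → ℝ} {τ : S → B → ℝ} {T : Set S}
    (hσ : Strat σ) (hτ : Strat τ) (n : ℕ) (s : S) : It next σ τ T n s ≤ 1 := by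
  induction n generalizing s with
  | zero => exact ind_le_one T s
  | succ n ih => rw [It_succ]; exact F_le_one hσ hτ ih s

theorem It_step {next : S → A → B → S} {σ : S → A → ℝ} {τ : S → B → ℝ} {T : Set S}
    (hσ : Strat σ) (hτ : Strat τ) (n : ℕ) (s : S) :
    It next σ τ T n s ≤ It next σ τ T (n + 1) s := by
  induction n generalizing s with
  | zero =>
    rw [It_succ]
    by_cases hs : s ∈ T
    · rw [F_of_mem hs]; exact ind_le_one T s
    · rw [It_zero, Set.indicator_of_notMem hs]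
      exact F_nonneg hσ hτ (ind_nonneg T) s
  | succ n ih =>
    rw [It_succ, It_succ (n + 1)]
    exact F_mono hσ hτ ih s

theorem It_mono {next : S → A → B → S} {σ : S → A → ℝ} {τ : S → B → ℝ} {T : Set S}
    (hσ : Strat σ) (hτ : Strat τ) (s : S) : Monotone fun n => It next σ τ T n s :=
  monotone_nat_of_le_succ fun n => It_step hσ hτ n s

theorem It_bdd {next : S → A → B → S} {σ : S → A → ℝ} {τ : S → B → ℝ} {T : Set S}
    (hσ : Strat σ) (hτ : Strat τ) (s : S) : BddAbove (range fun n => It next σ τ T n s) := by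
  refine ⟨1, ?_⟩
  rintro _ ⟨n, rfl⟩
  exact It_le_one hσ hτ n s

theorem It_tendsto {next : S → A → B → S} {σ : S → A → ℝ} {τ : S → B → ℝ} {T : Set S}
    (hσ : Strat σ) (hτ : Strat τ) (s : S) :
    Tendsto (fun n => It next σ τ T n s) atTop (𝓝 (R next σ τ T s)) :=
  tendsto_atTop_ciSup (It_mono hσ hτ s) (It_bdd hσ hτ s)

theorem It_le_R {next : S → A → B → S} {σ : S → A → ℝ} {τ : S → B → ℝ} {T : Set S}
    (hσ : Strat σ) (hτ : Strat τ) (n : ℕ) (s : S) : It next σ τ T n s ≤ R next σ τ T s :=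
  le_ciSup (It_bdd hσ hτ s) n

theorem R_nonneg {next : S → A → B → S} {σ : S → A → ℝ} {τ : S → B → ℝ} {T : Set S}
    (hσ : Strat σ) (hτ : Strat τ) (s : S) : 0 ≤ R next σ τ T s :=
  (It_nonneg hσ hτ 0 s).trans (It_le_R hσ hτ 0 s)

theorem R_le_one {next : S → A → B → S} {σ : S → A → ℝ} {τ : S → B → ℝ} {T : Set S}
    (hσ : Strat σ) (hτ : Strat τ) (s : S) : R next σ τ T s ≤ 1 :=
  ciSup_le fun n => It_le_one hσ hτ n s

/-- On the target the value is one. -/
theorem R_of_mem {next : S → A → B → S} {σ : S → A → ℝ} {τ : S → B → ℝ} {T : Set S}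
    (hσ : Strat σ) (hτ : Strat τ) {s : S} (hs : s ∈ T) : R next σ τ T s = 1 := by
  refine le_antisymm (R_le_one hσ hτ s) ?_
  have := It_le_R (next := next) (T := T) hσ hτ 0 s
  rw [It_zero, Set.indicator_of_mem hs] at this
  exact this

/-- The fixed point equation off the target. -/
theorem R_of_notMem {next : S → A → B → S} {σ : S → A → ℝ} {τ : S → B → ℝ} {T : Set S}
    (hσ : Strat σ) (hτ : Strat τ) {s : S} (hs : s ∉ T) :
    R next σ τ T s = ∑ a, ∑ b, σ s a * τ s b * R next σ τ T (next s a b) := by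
  have h1 : Tendsto (fun n => It next σ τ T (n + 1) s) atTop (𝓝 (R next σ τ T s)) :=
    (tendsto_add_atTop_iff_nat 1).2 (It_tendsto hσ hτ s)
  have h2 : Tendsto (fun n => It next σ τ T (n + 1) s) atTop
      (𝓝 (∑ a, ∑ b, σ s a * τ s b * R next σ τ T (next s a b))) := by
    have : (fun n => It next σ τ T (n + 1) s)
        = fun n => ∑ a, ∑ b, σ s a * τ s b * It next σ τ T n (next s a b) := by
      funext n
      rw [It_succ, F_of_notMem hs]
    rw [this]
    refine tendsto_finsetSum _ fun a _ => tendsto_finsetSum _ fun b _ => ?_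
    exact (It_tendsto hσ hτ _).const_mul _
  exact tendsto_nhds_unique h1 h2

/-- `R` is the least supersolution. -/
theorem R_le_of_super {next : S → A → B → S} {σ : S → A → ℝ} {τ : S → B → ℝ} {T : Set S}
    (hσ : Strat σ) (hτ : Strat τ) {w : S → ℝ} (h0 : ∀ s, 0 ≤ w s)
    (h1 : ∀ s ∈ T, 1 ≤ w s)
    (h2 : ∀ s, s ∉ T → ∑ a, ∑ b, σ s a * τ s b * w (next s a b) ≤ w s) (s : S) :
    R next σ τ T s ≤ w s := by
  refine ciSup_le fun n => ?_
  change It next σ τ T n s ≤ w s
  induction n generalizing s with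
  | zero =>
    rw [It_zero]
    by_cases hs : s ∈ T
    · rw [Set.indicator_of_mem hs]; exact h1 s hs
    · rw [Set.indicator_of_notMem hs]; exact h0 s
  | succ n ih =>
    rw [It_succ]
    refine (F_mono hσ hτ ih s).trans ?_
    by_cases hs : s ∈ T
    · rw [F_of_mem hs]; exact h1 s hs
    · rw [F_of_notMem hs]; exact h2 s hs

/-- The value vanishes on a closed set of states disjoint from the target (closedness only with
respect to positive-probability transitions). -/
theorem R_eq_zero_of_closed {next : S → A → B → S} {σ : S → A → ℝ} {τ : S → B → ℝ} {T : Set S}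
    (hσ : Strat σ) (hτ : Strat τ) (C : Set S) (hC : ∀ s ∈ C, s ∉ T)
    (hcl : ∀ s ∈ C, ∀ a b, next s a b ∉ C → σ s a * τ s b = 0) {s : S} (hs : s ∈ C) :
    R next σ τ T s = 0 := by
  classical
  refine le_antisymm ?_ (R_nonneg hσ hτ s)
  have key := R_le_of_super (next := next) (T := T) hσ hτ
    (w := fun s => if s ∈ C then 0 else 1)
    (by intro s; split_ifs <;> norm_num)
    (by
      intro s hs
      have : s ∉ C := fun h => hC s h hs
      simp [this])
    (by
      intro s hs
      by_cases hsC : s ∈ C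
      · simp only [hsC, if_true]
        refine (Finset.sum_eq_zero fun a _ => Finset.sum_eq_zero fun b _ => ?_).le
        by_cases h : next s a b ∈ C
        · simp [h]
        · simp [h, hcl s hsC a b h]
      · simp only [hsC, if_false]
        refine le_trans ?_ (sum_prod_one hσ hτ s).le
        refine Finset.sum_le_sum fun a _ => Finset.sum_le_sum fun b _ => ?_
        have hnn := mul_nonneg (hσ.1 s a) (hτ.1 s b)
        split_ifs
        · simpa using hnn
        · simp) s
  simpa [hs] using key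

/-- A self-loop outside the target has value zero. -/
theorem R_absorb {next : S → A → B → S} {σ : S → A → ℝ} {τ : S → B → ℝ} {T : Set S}
    (hσ : Strat σ) (hτ : Strat τ) {s : S} (hs : s ∉ T) (hl : ∀ a b, next s a b = s) :
    R next σ τ T s = 0 := by
  refine R_eq_zero_of_closed hσ hτ {s} (by rintro t rfl; exact hs) ?_ rfl
  rintro t rfl a b h
  exact absurd (hl a b) (by simpa using h)

end

/-- Along an ultrafilter a bounded real sequence has a limit. -/
theorem exists_lim {ι : Type} (u : Ultrafilter ι) {f : ι → ℝ} {a b : ℝ}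
    (h : ∀ n, f n ∈ Icc a b) : ∃ x ∈ Icc a b, Tendsto f u (𝓝 x) := by
  have hle : ((Ultrafilter.map f u : Ultrafilter ℝ) : Filter ℝ) ≤ 𝓟 (Icc a b) := by
    rw [le_principal_iff]
    change f ⁻¹' Icc a b ∈ u
    have : f ⁻¹' Icc a b = univ := by
      ext n; simpa using h n
    rw [this]; exact univ_mem
  obtain ⟨x, hx, hxl⟩ := (isCompact_Icc (a := a) (b := b)).ultrafilter_le_nhds _ hle
  exact ⟨x, hx, hxl⟩

end Pool.Agent.H28.SG
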